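import Mathlib

/-!
# MP_670a4f_lc, St/Comb: alternating pairs of sequences

`W x y X m K q`: the sequences agree below `m = q 0`, and the blocks of `y` between
`q j` and `q (j+1)` lie in the gap of `x` just below the index `q (j+2)`, for `j < K`;
from the index `q K` on the sequence `y` is above `X`.
-/

set_option autoImplicit false

namespace Pool.Agent.H.MP_670a4f_lc.St

variable {α : Type*} [LinearOrder α]

structure W (x y : ℕ → α) (X : α) (m K : ℕ) (q : ℕ → ℕ) : Prop where
  h0 : q 0 = m
  hq : ∀ j, j ≤ K → q j < q (j + 1)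
  hag : ∀ i, i < m → x i = y i
  hA : ∀ j, j < K → x (q (j + 2) - 1) < y (q j)
  hB : ∀ j, j < K → y (q (j + 1) - 1) < x (q (j + 2))
  hE : X ≤ y (q K)

theorem le_of_lt' {x : ℕ → α} (hx : StrictMono x) {a b : ℕ} (h : x (a - 1) < x b) : a ≤ b := by
  have := hx.lt_iff_lt.1 h
  omega

theorem W.mono_q {x y : ℕ → α} {X : α} {m K : ℕ} {q : ℕ → ℕ} (h : W x y X m K q) :
    ∀ j, j ≤ K + 1 → m + j ≤ q j := by
  intro j
  induction j with
  | zero => intro _; have := h.h0; omega
  | succ j ih =>
    intro hj
    have h1 := ih (by omega)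
    have h2 := h.hq j (by omega)
    omega

theorem W.lt_m {x y : ℕ → α} {X : α} {m K : ℕ} {q : ℕ → ℕ} (h : W x y X m K q)
    (hx : StrictMono x) (hK : 0 < K) : x m < y m := by
  have h1 := h.hA 0 hK
  have h2 := h.hq 0 (by omega)
  have h3 : q 1 < q 2 := h.hq 1 (by omega)
  have h4 := h.h0
  have h1' : x (q 2 - 1) < y (q 0) := h1
  have h2' : q 0 < q 1 := h2
  rw [h4] at h1'
  refine lt_of_le_of_lt (hx.monotone ?_) h1'
  omega

theorem W.le_all {x y : ℕ → α} {X : α} {m K : ℕ} {q : ℕ → ℕ} (h : W x y X m K q)
    (hx : StrictMono x) (hy : StrictMono y) (hX : ∀ i, x i < X) : ∀ i, x i ≤ y i := by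
  intro i
  by_cases hi : i < m
  · exact le_of_eq (h.hag i hi)
  · have key : ∀ j, j ≤ K → i < q j → x i ≤ y i := by
      intro j
      induction j with
      | zero => intro _ h1; have := h.h0; omega
      | succ j ih =>
        intro hj h1
        by_cases h2 : i < q j
        · exact ih (by omega) h2
        · have h3 := h.hA j (by omega)
          have h4 := h.hq (j + 1) hj
          have h5 : x i ≤ x (q (j + 2) - 1) := hx.monotone (by
            have : q (j + 1) < q (j + 2) := h4
            omega)
          have h6 : y (q j) ≤ y i := hy.monotone (by omega)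
          exact le_trans h5 (le_trans h3.le h6)
    by_cases h1 : i < q K
    · exact key K le_rfl h1
    · exact le_trans (hX i).le (le_trans h.hE (hy.monotone (by omega)))

/-- the number of alternations is determined by the pair -/
theorem W.unique_aux {x y : ℕ → α} {X : α} {m k l : ℕ} {q p : ℕ → ℕ}
    (h : W x y X m (2 * k) q) (h' : W x y X m (2 * l) p) (hx : StrictMono x) (hy : StrictMono y)
    (hX : ∀ i, x i < X) : l ≤ k := by
  by_contra hkl
  have key : ∀ i, i ≤ k → q (2 * i) ≤ p (2 * i) := by
    intro i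
    induction i with
    | zero => intro _; rw [Nat.mul_zero, h.h0, h'.h0]
    | succ i ih =>
      intro hi
      have h1 := ih (by omega)
      have h2 := h.hA (2 * i) (by omega)
      have h3 := h'.hB (2 * i) (by omega)
      have h4 := h'.hq (2 * i) (by omega)
      have h5 : y (q (2 * i)) ≤ y (p (2 * i + 1) - 1) := hy.monotone (by omega)
      have e : 2 * (i + 1) = 2 * i + 2 := by ring
      rw [e]
      exact le_of_lt' hx (lt_trans (lt_of_lt_of_le h2 h5) h3)
  have h1 := key k le_rfl
  have h2 := h'.hq (2 * k) (by omega)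
  have h3 := h'.hB (2 * k) (by omega)
  have h4 : y (q (2 * k)) ≤ y (p (2 * k + 1) - 1) := hy.monotone (by omega)
  exact absurd (hX _) (not_lt.2 (le_trans h.hE (le_trans h4 h3.le)))

theorem caseA {x y z : ℕ → α} {X Y : α} (hx : StrictMono x) (hy : StrictMono y)
    (hz : StrictMono z) (hX : ∀ i, x i < X) (hXY : X < Y) (hyz : ∀ i, y i ≤ z i)
    {m d k : ℕ} (hd : d < k) {q q' q'' : ℕ → ℕ}
    (h1 : W x y X m (2 * k) q) (h2 : W y z Y (m + d) (2 * (k - d)) q')
    (h3 : W x z X m (2 * k) q'') : False := by
  -- A1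
  have A1 : ∀ i, i ≤ k → q (2 * i) ≤ q'' (2 * i) := by
    intro i
    induction i with
    | zero => intro _; rw [Nat.mul_zero, h1.h0, h3.h0]
    | succ i ih =>
      intro hi
      have a := ih (by omega)
      have b := h1.hA (2 * i) (by omega)
      have c := h3.hB (2 * i) (by omega)
      have e := h3.hq (2 * i) (by omega)
      have f : z (q (2 * i)) ≤ z (q'' (2 * i + 1) - 1) := hz.monotone (by omega)
      have g : 2 * (i + 1) = 2 * i + 2 := by ring
      rw [g]
      exact le_of_lt' hx (lt_trans (lt_of_lt_of_le b (le_trans (hyz _) f)) c)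
  -- A2
  have A2 : q'' (2 * k) ≤ q (2 * k) := by
    by_contra hc
    have b := h3.hB (2 * k - 1) (by omega)
    have e1 : 2 * k - 1 + 1 = 2 * k := by omega
    rw [e1] at b
    have f : z (q (2 * k)) ≤ z (q'' (2 * k) - 1) := hz.monotone (by omega)
    exact absurd (hX _) (not_lt.2 (le_trans h1.hE (le_trans (hyz _) (le_trans f b.le))))
  have stepA3 : ∀ i, i < k → y (q (2 * i + 1)) ≤ z (q'' (2 * i)) →
      q (2 * i + 3) ≤ q'' (2 * i + 2) := by
    intro i hi hle
    have b := h1.hA (2 * i + 1) (by omega)
    have c := h3.hB (2 * i) (by omega)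
    have e := h3.hq (2 * i) (by omega)
    have f : z (q'' (2 * i)) ≤ z (q'' (2 * i + 1) - 1) := hz.monotone (by omega)
    exact le_of_lt' hx (lt_trans (lt_of_lt_of_le b (le_trans hle f)) c)
  -- A3
  have A3 : ∀ t i, i + t = k → q'' (2 * i) < q (2 * i + 1) := by
    intro t
    induction t with
    | zero =>
      intro i hi
      have : i = k := by omega
      subst this
      exact lt_of_le_of_lt A2 (h1.hq _ le_rfl)
    | succ t ih =>
      intro i hi
      by_contra hc
      have a : q (2 * i + 3) ≤ q'' (2 * i + 2) :=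
        stepA3 i (by omega) (le_trans (hyz _) (hz.monotone (by omega)))
      have b := ih (i + 1) (by omega)
      have g : 2 * (i + 1) = 2 * i + 2 := by ring
      rw [g] at b
      have b' : q'' (2 * i + 2) < q (2 * i + 3) := b
      omega
  -- A4
  have A4 : ∀ i, i < k → z (q'' (2 * i)) < y (q (2 * i + 1)) := by
    intro i hi
    by_contra hc
    have a := stepA3 i hi (not_lt.1 hc)
    have b := A3 (k - (i + 1)) (i + 1) (by omega)
    have g : 2 * (i + 1) = 2 * i + 2 := by ring
    rw [g] at b
    have b' : q'' (2 * i + 2) < q (2 * i + 3) := b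
    omega
  -- A5
  have stepA5 : ∀ t, t < k - d → q' (2 * t) ≤ q'' (2 * (d + t)) →
      q' (2 * t + 2) ≤ q (2 * (d + t) + 1) := by
    intro t ht hle
    have b := h2.hA (2 * t) (by omega)
    have c := A4 (d + t) (by omega)
    exact le_of_lt' hy (lt_trans (lt_of_lt_of_le b (hz.monotone hle)) c)
  have A5 : ∀ t, t < k - d → q' (2 * t) ≤ q'' (2 * (d + t)) := by
    intro t
    induction t with
    | zero =>
      intro _
      rw [Nat.mul_zero, h2.h0, Nat.add_zero]
      have := h3.mono_q (2 * d) (by omega)
      omega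
    | succ t ih =>
      intro ht
      have a := stepA5 t (by omega) (ih (by omega))
      have b := h1.hq (2 * (d + t) + 1) (by omega)
      have c := A1 (d + t + 1) (by omega)
      have g : 2 * (t + 1) = 2 * t + 2 := by ring
      have g' : 2 * (d + (t + 1)) = 2 * (d + t) + 2 := by ring
      have g'' : 2 * (d + t + 1) = 2 * (d + t) + 2 := by ring
      rw [g, g']
      rw [g''] at c
      have b' : q (2 * (d + t) + 1) < q (2 * (d + t) + 2) := b
      omega
  have a := stepA5 (k - d - 1) (by omega) (A5 _ (by omega))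
  have e1 : 2 * (k - d - 1) + 2 = 2 * (k - d) := by omega
  have e2 : 2 * (d + (k - d - 1)) + 1 = 2 * k - 1 := by omega
  rw [e1, e2] at a
  have b := h1.hq (2 * k - 1) (by omega)
  have e3 : 2 * k - 1 + 1 = 2 * k := by omega
  rw [e3] at b
  have c := A1 k le_rfl
  have f := h3.hB (2 * k - 1) (by omega)
  rw [e3] at f
  have g : z (q' (2 * (k - d))) ≤ z (q'' (2 * k) - 1) := hz.monotone (by omega)
  have h := le_trans h2.hE (le_trans g f.le)
  exact absurd (lt_trans (hX _) hXY) (not_lt.2 h)

theorem caseB {x y z : ℕ → α} {X Y : α} (hx : StrictMono x) (hy : StrictMono y)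
    (hz : StrictMono z) (hX : ∀ i, x i < X) (hXY : X < Y) (hxy : ∀ i, x i ≤ y i)
    {m d k : ℕ} (hd : d < k) (hd0 : 0 < d) {q q' q'' : ℕ → ℕ}
    (h1 : W x y X (m + d) (2 * (k - d)) q) (h2 : W y z Y m (2 * k) q')
    (h3 : W x z X m (2 * k) q'') : False := by
  have B1 : ∀ i, i ≤ k → q' (2 * i) ≤ q'' (2 * i) := by
    intro i
    induction i with
    | zero => intro _; rw [Nat.mul_zero, h2.h0, h3.h0]
    | succ i ih =>
      intro hi
      have a := ih (by omega)
      have b := h2.hA (2 * i) (by omega)
      have c := h3.hB (2 * i) (by omega)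
      have e := h3.hq (2 * i) (by omega)
      have f : z (q' (2 * i)) ≤ z (q'' (2 * i + 1) - 1) := hz.monotone (by omega)
      have g : 2 * (i + 1) = 2 * i + 2 := by ring
      rw [g]
      exact le_of_lt' hy (lt_of_lt_of_le (lt_trans (lt_of_lt_of_le b f) c) (hxy _))
  have B2 : q'' (2 * k) ≤ q' (2 * k) := by
    by_contra hc
    have b := h3.hB (2 * k - 1) (by omega)
    have e1 : 2 * k - 1 + 1 = 2 * k := by omega
    rw [e1] at b
    have f : z (q' (2 * k)) ≤ z (q'' (2 * k) - 1) := hz.monotone (by omega)
    exact absurd (lt_trans (hX _) hXY) (not_lt.2 (le_trans h2.hE (le_trans f b.le)))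
  have B3 : ∀ t i, i + t = k → q'' (2 * i) < q' (2 * i + 1) := by
    intro t
    induction t with
    | zero =>
      intro i hi
      have : i = k := by omega
      subst this
      exact lt_of_le_of_lt B2 (h2.hq _ le_rfl)
    | succ t ih =>
      intro i hi
      by_contra hc
      have a : q' (2 * i + 3) ≤ q'' (2 * i + 2) := by
        have b := h2.hA (2 * i + 1) (by omega)
        have c := h3.hB (2 * i) (by omega)
        have e := h3.hq (2 * i) (by omega)
        have f : z (q' (2 * i + 1)) ≤ z (q'' (2 * i + 1) - 1) := hz.monotone (by omega)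
        exact le_of_lt' hy (lt_of_lt_of_le (lt_trans (lt_of_lt_of_le b f) c) (hxy _))
      have b := ih (i + 1) (by omega)
      have g : 2 * (i + 1) = 2 * i + 2 := by ring
      rw [g] at b
      have b' : q'' (2 * i + 2) < q' (2 * i + 3) := b
      omega
  -- the value of y just before the index q'(2(d+t)) is below x at q''(2(d+t))
  have stepB : ∀ t, t ≤ k - d → q (2 * t) < q' (2 * (d + t)) →
      y (q (2 * t)) < x (q'' (2 * (d + t))) := by
    intro t ht hlt
    have b := h2.hA (2 * (d + t) - 2) (by omega)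
    have e1 : 2 * (d + t) - 2 + 2 = 2 * (d + t) := by omega
    rw [e1] at b
    have c := h3.hB (2 * (d + t) - 2) (by omega)
    rw [e1] at c
    have e := h3.hq (2 * (d + t) - 2) (by omega)
    have a := B1 (d + t - 1) (by omega)
    have e2 : 2 * (d + t - 1) = 2 * (d + t) - 2 := by omega
    rw [e2] at a
    have f : z (q' (2 * (d + t) - 2)) ≤ z (q'' (2 * (d + t) - 2 + 1) - 1) :=
      hz.monotone (by omega)
    have g : y (q (2 * t)) ≤ y (q' (2 * (d + t)) - 1) := hy.monotone (by omega)
    exact lt_trans (lt_of_le_of_lt g (lt_of_lt_of_le b f)) c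
  have B5 : ∀ t, t ≤ k - d → q (2 * t) < q' (2 * (d + t)) := by
    intro t
    induction t with
    | zero =>
      intro _
      rw [Nat.mul_zero, h1.h0, Nat.add_zero]
      have := h2.mono_q (2 * d) (by omega)
      omega
    | succ t ih =>
      intro ht
      have a := ih (by omega)
      have b := stepB t (by omega) a
      have c := h1.hA (2 * t) (by omega)
      have e : q (2 * t + 2) ≤ q'' (2 * (d + t)) := le_of_lt' hx (lt_trans c b)
      have f := B3 (k - (d + t)) (d + t) (by omega)
      have g := h2.hq (2 * (d + t) + 1) (by omega)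
      have e1 : 2 * (t + 1) = 2 * t + 2 := by ring
      have e2 : 2 * (d + (t + 1)) = 2 * (d + t) + 2 := by ring
      rw [e1, e2]
      have g' : q' (2 * (d + t) + 1) < q' (2 * (d + t) + 2) := g
      omega
  have a := stepB (k - d) le_rfl (B5 _ le_rfl)
  exact absurd (hX _) (not_lt.2 (le_trans h1.hE a.le))

end Pool.Agent.H.MP_670a4f_lc.St
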