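import Pool.Agent.H.MP_670a4f_lc.St.Types
import Pool.Agent.H.MP_670a4f_lc.St.Comb

/-!
# MP_670a4f_lc, St/Colour: the graphs `G n` and the colouring
-/

set_option autoImplicit false

namespace Pool.Agent.H.MP_670a4f_lc.St

open Set Cardinal

/-- the `n`-th graph of a ladder system -/
def G (L : Om → ℕ → Om) (n : ℕ) (x y : Om) : Prop :=
  x ∈ Lm ∧ y ∈ Lm ∧ x < y ∧ ∃ (m : ℕ) (q : ℕ → ℕ), m ≤ n ∧ W (L x) (L y) x m (2 * (n - m + 1)) q

theorem G_unique {L : Om → ℕ → Om} (hL : Ladder L) {n n' : ℕ} {x y : Om} (h : G L n x y)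
    (h' : G L n' x y) : n = n' := by
  obtain ⟨hx, hy, _, m, q, hm, hW⟩ := h
  obtain ⟨_, _, _, m', q', hm', hW'⟩ := h'
  have h1 := hW.lt_m (hL.mono x hx) (by omega)
  have h2 := hW'.lt_m (hL.mono x hx) (by omega)
  have e : m = m' := by
    rcases lt_trichotomy m m' with h | h | h
    · exact absurd (hW'.hag m h) h1.ne
    · exact h
    · exact absurd (hW.hag m' h) h2.ne
  subst e
  have h3 := hW.unique_aux hW' (hL.mono x hx) (hL.mono y hy) (hL.lt x hx)
  have h4 := hW'.unique_aux hW (hL.mono x hx) (hL.mono y hy) (hL.lt x hx)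
  omega

theorem G_triangle {L : Om → ℕ → Om} (hL : Ladder L) {n : ℕ} {x y z : Om} (h1 : G L n x y)
    (h2 : G L n y z) (h3 : G L n x z) : False := by
  obtain ⟨hx, hy, hxy, m1, q1, hm1, W1⟩ := h1
  obtain ⟨_, hz, hyz, m2, q2, hm2, W2⟩ := h2
  obtain ⟨_, _, _, m3, q3, hm3, W3⟩ := h3
  have ux := hL.mono x hx
  have uy := hL.mono y hy
  have uz := hL.mono z hz
  have l1 := W1.lt_m ux (by omega)
  have l2 := W2.lt_m uy (by omega)
  have l3 := W3.lt_m ux (by omega)
  have a1 := W1.le_all ux uy (hL.lt x hx)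
  have a2 := W2.le_all uy uz (hL.lt y hy)
  rcases Nat.lt_or_ge m2 m1 with h | h
  · -- case B
    have e : m3 = m2 := by
      rcases lt_trichotomy m3 m2 with h' | h' | h'
      · have := W1.hag m3 (by omega)
        have := W2.hag m3 h'
        exact absurd l3 (by simp_all)
      · exact h'
      · have i1 := W3.hag m2 h'
        have i2 := a1 m2
        exact absurd (lt_of_le_of_lt i2 l2) (by rw [i1]; exact lt_irrefl _)
    subst e
    obtain ⟨d, rfl⟩ : ∃ d, m1 = m3 + d := ⟨m1 - m3, by omega⟩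
    have e1 : n - (m3 + d) + 1 = (n - m3 + 1) - d := by omega
    rw [e1] at W1
    exact caseB ux uy uz (hL.lt x hx) hxy a1 (k := n - m3 + 1) (by omega) (by omega) W1 W2 W3
  · have e : m3 = m1 := by
      rcases lt_trichotomy m3 m1 with h' | h' | h'
      · have := W1.hag m3 h'
        have := W2.hag m3 (by omega)
        exact absurd l3 (by simp_all)
      · exact h'
      · have i1 := W3.hag m1 h'
        have i2 := a2 m1
        exact absurd (lt_of_lt_of_le l1 i2) (by rw [i1]; exact lt_irrefl _)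
    subst e
    obtain ⟨d, rfl⟩ : ∃ d, m2 = m3 + d := ⟨m2 - m3, by omega⟩
    have e1 : n - (m3 + d) + 1 = (n - m3 + 1) - d := by omega
    rw [e1] at W2
    exact caseA ux uy uz (hL.lt x hx) hxy a2 (k := n - m3 + 1) (by omega) W1 W2 W3

/-- the graph `G n` has edges in a set that splits with a long type -/
theorem G_of_sp {L : Om → ℕ → Om} {X : Set Om} {n m : ℕ} {s : List ℕ}
    (hL : Ladder L) (hX : X ⊆ Lm) (hmn : m ≤ n) (hs : s.length = 2 * (n - m + 1) + 1)
    (h : Sp L X m s) : ∃ x ∈ X, ∃ y ∈ X, G L n x y := by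
  obtain ⟨K, hK⟩ : ∃ K, K = 2 * (n - m + 1) := ⟨_, rfl⟩
  rw [← hK] at hs
  match s, hs, h with
  | [], hs, _ => exact absurd hs (by simp)
  | [_], hs, _ => exact absurd hs (by simp; omega)
  | a :: b :: t, hs, h =>
    have ht : t.length + 1 = K := by simpa using hs
    obtain ⟨α, Z, _, hZX, _, hSZ, hma, _⟩ := h.next (Classical.arbitrary Om)
    obtain ⟨β, Z', _, hZ', _, hSZ', hab, x0, hx0⟩ := hSZ.next (Classical.arbitrary Om)
    obtain ⟨δ, V, hδ, hVX, hVm, hSV, _, _⟩ := h.next (L x0 (b - 1))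
    obtain ⟨x, hx, y, hy, p, hp0, hp1, h1, h2, h3⟩ := build t b a Z' V (by omega) hab hSZ' hSV
    have hxX : x ∈ X := hZX (hZ' hx)
    have hyX : y ∈ X := hVX hy
    have hxL := hX hxX
    have hyL := hX hyX
    refine ⟨x, hxX, y, hyX, hxL, hyL, lt_of_le_of_lt h3 (hL.lt y hyL _), m,
      fun j => if j = 0 then m else p (j - 1), hmn, ?_⟩
    rw [← hK]
    constructor
    · simp
    · intro j hj
      cases j with
      | zero =>
        show m < p 0
        rw [hp0]
        exact hma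
      | succ j =>
        show p j < p (j + 1)
        exact (h1 j (by omega)).1
    · intro i hi
      exact h.1 x hxX y hyX i hi
    · intro j hj
      cases j with
      | zero =>
        show L x (p 1 - 1) < L y m
        rw [hp1, hVm y hy, hSZ'.1 x hx x0 hx0 (b - 1) (by omega)]
        exact hδ
      | succ j =>
        show L x (p (j + 2) - 1) < L y (p j)
        exact h2 j (by omega)
    · intro j hj
      show L y (p j - 1) < L x (p (j + 1))
      exact (h1 j (by omega)).2
    · have e : K = t.length + 1 := by omega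
      rw [e]
      show x ≤ L y (p t.length)
      exact h3

/-- the colour names of a point -/
def lam (r : Om → ℕ → Bool) (x : Om) (k : ℕ) : ℕ := Encodable.encode ((List.range k).map (r x))

theorem lam_inj (r : Om → ℕ → Bool) (x : Om) : Function.Injective (lam r x) := by
  intro k l h
  have h1 := Encodable.encode_injective h
  have h2 := congrArg List.length h1
  simpa using h2

theorem lam_ad (r : Om → ℕ → Bool) (hr : Function.Injective r) {x y : Om} (hxy : x ≠ y) :
    {n | n ∈ range (lam r x) ∧ n ∈ range (lam r y)}.Finite := by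
  obtain ⟨i, hi⟩ := Function.ne_iff.1 (fun h => hxy (hr h))
  apply ((Set.finite_Iic i).image (lam r x)).subset
  rintro n ⟨⟨k, rfl⟩, ⟨l, hl⟩⟩
  refine ⟨k, ?_, rfl⟩
  have h1 := Encodable.encode_injective hl
  have h2 : l = k := by simpa using congrArg List.length h1
  subst h2
  by_contra hc
  have h3 : i < l := not_le.1 hc
  exact hi ((List.map_inj_left.1 h1 i (List.mem_range.2 h3)).symm)

/-- the colour of the pair `x < y` -/
noncomputable def g (L : Om → ℕ → Om) (r : Om → ℕ → Bool) (e : Om → Om → ℕ) (x y : Om) : ℕ :=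
  open Classical in
  if h : ∃ n, G L n x y ∧ n ∉ range (lam r x) ∧ n ∉ range (lam r y) then h.choose
  else lam r y (e y x)

theorem g_cases (L : Om → ℕ → Om) (r : Om → ℕ → Bool) (e : Om → Om → ℕ) (x y : Om) :
    (G L (g L r e x y) x y ∧ g L r e x y ∉ range (lam r x) ∧ g L r e x y ∉ range (lam r y)) ∨
      g L r e x y = lam r y (e y x) := by
  classical
  by_cases h : ∃ n, G L n x y ∧ n ∉ range (lam r x) ∧ n ∉ range (lam r y)
  · left
    have h1 : g L r e x y = h.choose := by
      unfold g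
      rw [dif_pos h]
    rw [h1]
    exact h.choose_spec
  · right
    unfold g
    rw [dif_neg h]

theorem g_eq {L : Om → ℕ → Om} (hL : Ladder L) (r : Om → ℕ → Bool) (e : Om → Om → ℕ) {x y : Om}
    {n : ℕ} (h1 : G L n x y) (h2 : n ∉ range (lam r x)) (h3 : n ∉ range (lam r y)) :
    g L r e x y = n := by
  classical
  have h : ∃ n, G L n x y ∧ n ∉ range (lam r x) ∧ n ∉ range (lam r y) := ⟨n, h1, h2, h3⟩
  have h4 : g L r e x y = h.choose := by
    unfold g
    rw [dif_pos h]
  rw [h4]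
  exact G_unique hL h.choose_spec.1 h1

/-- no monochromatic triangle -/
theorem g_triangle {L : Om → ℕ → Om} (hL : Ladder L) (r : Om → ℕ → Bool) {e : Om → Om → ℕ}
    (he : ∀ y a b, a < y → b < y → e y a = e y b → a = b) {a b c : Om} (hab : a < b) (hbc : b < c)
    (h1 : g L r e a b = g L r e b c) (h2 : g L r e b c = g L r e a c) : False := by
  rcases g_cases L r e b c with hb | hb
  · rcases g_cases L r e a c with hc | hc
    · rcases g_cases L r e a b with ha | ha
      · rw [h1] at ha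
        rw [← h2] at hc
        exact G_triangle hL ha.1 hb.1 hc.1
      · apply hb.2.1
        rw [← h1, ha]
        exact ⟨_, rfl⟩
    · apply hb.2.2
      rw [h2, hc]
      exact ⟨_, rfl⟩
  · rcases g_cases L r e a c with hc | hc
    · apply hc.2.2
      rw [← h2, hb]
      exact ⟨_, rfl⟩
    · have h3 : lam r c (e c b) = lam r c (e c a) := by rw [← hb, ← hc]; exact h2
      exact absurd (he c a b (lt_trans hab hbc) hbc (lam_inj r c h3.symm)) hab.ne

theorem exists_e : ∃ e : Om → Om → ℕ, ∀ y a b, a < y → b < y → e y a = e y b → a = b := by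
  have h1 : ∀ y : Om, ∃ f : Om → ℕ, Set.InjOn f (Iio y) := fun y =>
    (Set.countable_iff_exists_injOn).1 (om_countable y)
  choose e he using h1
  exact ⟨e, fun y a b ha hb h => he y ha hb h⟩

/-- a stationary set is, for almost all colours `n`, stationary off the set of the points
with `n` among their names -/
theorem stat_names {r : Om → ℕ → Bool} (hr : Function.Injective r) {Z : Set Om}
    (hZ : IsStationary Z) :
    ∃ N : ℕ, ∀ n, N ≤ n → IsStationary {x | x ∈ Z ∧ n ∉ range (lam r x)} := by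
  classical
  let S : Set ℕ := {n | ¬ IsStationary {x | x ∈ Z ∧ n ∉ range (lam r x)}}
  have hS : S.Finite := by
    have h1 : Z ⊆ ⋃ j : Option S, (match j with
        | none => {x | x ∈ Z ∧ ∀ n ∈ S, n ∈ range (lam r x)}
        | some n => {x | x ∈ Z ∧ n.1 ∉ range (lam r x)}) := by
      intro x hx
      by_cases h : ∀ n ∈ S, n ∈ range (lam r x)
      · exact mem_iUnion.2 ⟨none, hx, h⟩
      · push Not at h
        obtain ⟨n, hn, hnx⟩ := h
        exact mem_iUnion.2 ⟨some ⟨n, hn⟩, hx, hnx⟩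
    obtain ⟨j, hj⟩ := stat_cover hZ h1
    cases j with
    | none =>
      obtain ⟨x, hx, y, hy, hxy⟩ := stat_two hj
      apply (lam_ad r hr hxy.ne).subset
      intro n hn
      exact ⟨hx.2 n hn, hy.2 n hn⟩
    | some n => exact absurd hj n.2
  obtain ⟨N, hN⟩ := hS.bddAbove
  refine ⟨N + 1, ?_⟩
  intro n hn
  by_contra hc
  have : n ≤ N := hN (show n ∈ S from hc)
  omega

/-- on a stationary set all but finitely many colours occur -/
theorem g_stat {L : Om → ℕ → Om} (hL : Ladder L) {r : Om → ℕ → Bool} (hr : Function.Injective r)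
    (e : Om → Om → ℕ) {X : Set Om} (hX : IsStationary X) :
    ∃ N : ℕ, ∀ n, N ≤ n → ∃ x ∈ X, ∃ y ∈ X, x < y ∧ g L r e x y = n := by
  obtain ⟨m, Z, hZ, hA, hU⟩ := split hL (stat_inter hX club_Lm) (fun x hx => hx.2)
  have h1 : ∀ γ : Om, ∃ α, γ < α ∧ ∃ N : ℕ, ∀ n, N ≤ n →
      IsStationary {x | x ∈ {x | x ∈ Z ∧ L x m = α} ∧ n ∉ range (lam r x)} := by
    intro γ
    obtain ⟨α, hα, h⟩ := hU γ
    exact ⟨α, hα, stat_names hr h⟩
  obtain ⟨N, hN⟩ := pigeon h1
  refine ⟨max N m, ?_⟩
  intro n hn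
  have hNn : N ≤ n := le_trans (le_max_left _ _) hn
  have hmn : m ≤ n := le_trans (le_max_right _ _) hn
  have h2 : ∀ γ : Om, ∃ α, γ < α ∧ ∃ s : List ℕ, s.length = 2 * (n - m + 1) + 1 ∧
      Typ L s {x | x ∈ {x | x ∈ Z ∧ n ∉ range (lam r x)} ∧ L x m = α} := by
    intro γ
    obtain ⟨α, hα, h⟩ := hN γ
    have h3 : IsStationary {x | x ∈ {x | x ∈ Z ∧ n ∉ range (lam r x)} ∧ L x m = α} :=
      (h n hNn).mono (fun x hx => ⟨⟨hx.1.1, hx.2⟩, hx.1.2⟩)
    exact ⟨α, hα, typ_exists hL _ _ h3 (fun x hx => (hZ hx.1.1).2)⟩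
  obtain ⟨s, hs⟩ := pigeon h2
  have hlen : s.length = 2 * (n - m + 1) + 1 := by
    obtain ⟨α, _, h3, _⟩ := hs (Classical.arbitrary Om)
    exact h3
  have hSp : Sp L {x | x ∈ Z ∧ n ∉ range (lam r x)} m s :=
    ⟨hA.mono (fun x hx => hx.1), fun γ => by
      obtain ⟨α, hα, _, h3⟩ := hs γ
      exact ⟨α, hα, h3⟩⟩
  obtain ⟨x, hx, y, hy, hG⟩ := G_of_sp hL (fun x hx => (hZ hx.1).2) hmn hlen hSp
  exact ⟨x, (hZ hx.1).1, y, (hZ hy.1).1, hG.2.2.1, g_eq hL r e hG hx.2 hy.2⟩

end Pool.Agent.H.MP_670a4f_lc.St
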