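import Pool.Agent.H.MP_670a4f_lc.Om

/-!
# MP_670a4f_lc, St/Stat: stationary sets of countable ordinals

Countable sets are bounded, the limit points form a club, diagonal intersections of clubs are
clubs, the pressing down lemma, and ladders.
-/

set_option autoImplicit false

namespace Pool.Agent.H.MP_670a4f_lc.St

open Set Cardinal

theorem om_bdd {S : Set Om} (hS : S.Countable) : ∃ b : Om, ∀ s ∈ S, s < b := by
  by_contra h
  push Not at h
  have h1 : (Set.univ : Set Om) ⊆ ⋃ s ∈ S, Iic s := by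
    intro b _
    obtain ⟨s, hs, hb⟩ := h b
    exact mem_biUnion hs hb
  have h2 : (⋃ s ∈ S, Iic s).Countable := by
    apply hS.biUnion
    intro s _
    have : Iic s = Iio s ∪ {s} := by
      ext t
      simp [le_iff_lt_or_eq]
    rw [this]
    exact (om_countable s).union (countable_singleton s)
  have h3 := h2.mono h1
  exact (not_countable_iff.2 (inferInstance : Uncountable Om)) (Set.countable_univ_iff.1 h3)

theorem om_bdd_seq (f : ℕ → Om) : ∃ b : Om, ∀ n, f n < b := by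
  obtain ⟨b, hb⟩ := om_bdd (countable_range f)
  exact ⟨b, fun n => hb _ ⟨n, rfl⟩⟩

theorem om_gt (a : Om) : ∃ b : Om, a < b := by
  obtain ⟨b, hb⟩ := om_bdd (countable_singleton a)
  exact ⟨b, hb a rfl⟩

theorem om_lub {S : Set Om} (hS : BddAbove S) : ∃ a, IsLUB S a := by
  obtain ⟨m, hm, hmin⟩ := (wellFounded_lt (α := Om)).has_min (upperBounds S) hS
  exact ⟨m, hm, fun b hb => not_lt.1 (hmin b hb)⟩

theorem om_lub_seq (f : ℕ → Om) : ∃ a, IsLUB (range f) a := by
  obtain ⟨b, hb⟩ := om_bdd_seq f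
  exact om_lub ⟨b, by rintro _ ⟨n, rfl⟩; exact (hb n).le⟩

theorem om_cof : Order.cof Om ≠ ℵ₀ := by
  intro h
  obtain ⟨S, hS, hc⟩ := Order.exists_cof_eq Om
  rw [h] at hc
  have h1 : S.Countable := by
    rw [← Cardinal.le_aleph0_iff_set_countable]
    exact hc.le
  obtain ⟨b, hb⟩ := om_bdd h1
  obtain ⟨s, hs, hbs⟩ := hS b
  exact absurd (hb s hs) (not_lt.2 hbs)

theorem club_mem_gt {C : Set Om} (hC : IsClub C) (a : Om) : ∃ b ∈ C, a < b := by
  obtain ⟨a', ha'⟩ := om_gt a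
  obtain ⟨b, hb, hab⟩ := hC.isCofinal a'
  exact ⟨b, hb, lt_of_lt_of_le ha' hab⟩

theorem club_Ioi (a : Om) : IsClub (Ioi a) := by
  constructor
  · intro d hd hne _ x hx
    obtain ⟨t, ht⟩ := hne
    exact lt_of_lt_of_le (hd ht) (hx.1 ht)
  · intro b
    obtain ⟨c, hc⟩ := om_gt (max a b)
    exact ⟨c, lt_of_le_of_lt (le_max_left _ _) hc, (lt_of_le_of_lt (le_max_right _ _) hc).le⟩

/-- diagonal intersections -/
theorem club_diag {C : Om → Set Om} (hC : ∀ a, IsClub (C a)) :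
    IsClub {x | ∀ a, a < x → x ∈ C a} := by
  constructor
  · intro d hd hne _ x hx a hax
    obtain ⟨t, ht, hat⟩ := (lt_isLUB_iff hx).1 hax
    have h1 : IsLUB {s | s ∈ d ∧ a < s} x := by
      constructor
      · intro s hs
        exact hx.1 hs.1
      · intro b hb
        refine hx.2 ?_
        intro s hs
        by_cases h : a < s
        · exact hb ⟨hs, h⟩
        · exact le_trans (le_trans (not_lt.1 h) hat.le) (hb ⟨ht, hat⟩)
    exact (hC a).isLUB_mem (t := {s | s ∈ d ∧ a < s}) (fun s hs => hd hs.1 a hs.2)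
      ⟨t, ht, hat⟩ h1
  · intro a0
    have step : ∀ a : Om, ∃ b, a < b ∧ ∀ c, c ≤ a → b ∈ C c := by
      intro a
      have h1 : IsClub (⋂ c : Iic a, C c) := by
        have : Countable (Iic a) := by
          have h2 : Iic a = Iio a ∪ {a} := by
            ext t
            simp [le_iff_lt_or_eq]
          rw [h2]
          exact ((om_countable a).union (countable_singleton a)).to_subtype
        exact IsClub.iInter_of_countable om_cof (fun c => hC c)
      obtain ⟨b, hb, hab⟩ := club_mem_gt h1 a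
      refine ⟨b, hab, ?_⟩
      intro c hc
      exact mem_iInter.1 hb ⟨c, hc⟩
    choose f hf1 hf2 using step
    let g : ℕ → Om := fun n => Nat.rec a0 (fun _ b => f b) n
    have hg : ∀ n, g (n + 1) = f (g n) := fun n => rfl
    have hmono : StrictMono g := strictMono_nat_of_lt_succ (fun n => by rw [hg]; exact hf1 _)
    obtain ⟨x, hx⟩ := om_lub_seq g
    refine ⟨x, ?_, hx.1 ⟨0, rfl⟩⟩
    intro a hax
    obtain ⟨_, ⟨n, rfl⟩, hn⟩ := (lt_isLUB_iff hx).1 hax
    have h1 : IsLUB (range fun k => g (n + 1 + k)) x := by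
      constructor
      · rintro _ ⟨k, rfl⟩
        exact hx.1 ⟨_, rfl⟩
      · intro b hb
        refine hx.2 ?_
        rintro _ ⟨k, rfl⟩
        exact le_trans (hmono.monotone (by omega : k ≤ n + 1 + k)) (hb ⟨k, rfl⟩)
    refine (hC a).isLUB_mem ?_ (range_nonempty _) h1
    rintro _ ⟨k, rfl⟩
    show g (n + 1 + k) ∈ C a
    have e : n + 1 + k = (n + k) + 1 := by omega
    rw [e, hg]
    exact hf2 _ _ (le_trans hn.le (hmono.monotone (by omega)))

theorem stat_inter {Y C : Set Om} (hY : IsStationary Y) (hC : IsClub C) :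
    IsStationary (Y ∩ C) := by
  intro D hD
  obtain ⟨x, hx⟩ := hY (hC.inter om_cof hD)
  exact ⟨x, ⟨hx.1, hx.2.1⟩, hx.2.2⟩

theorem stat_gt {Y : Set Om} (hY : IsStationary Y) (a : Om) : ∃ x ∈ Y, a < x := by
  obtain ⟨x, hx⟩ := hY (club_Ioi a)
  exact ⟨x, hx.1, hx.2⟩

/-- a stationary set has two elements -/
theorem stat_two {Y : Set Om} (hY : IsStationary Y) : ∃ x ∈ Y, ∃ y ∈ Y, x < y := by
  obtain ⟨x, hx⟩ := hY.nonempty
  obtain ⟨y, hy, hxy⟩ := stat_gt hY x
  exact ⟨x, hx, y, hy, hxy⟩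

/-- countable additivity of the nonstationary ideal -/
theorem stat_cover {ι : Type*} [Countable ι] {Y : Set Om} {F : ι → Set Om}
    (hY : IsStationary Y) (hF : Y ⊆ ⋃ i, F i) : ∃ i, IsStationary (F i) :=
  (isStationary_iUnion_iff_of_countable om_cof).1 (hY.mono hF)

/-- the pressing down lemma -/
theorem fodor {Y : Set Om} (hY : IsStationary Y) (f : Om → Om) (hf : ∀ x ∈ Y, f x < x) :
    ∃ a, IsStationary {x | x ∈ Y ∧ f x = a} := by
  by_contra h
  push Not at h
  have h1 : ∀ a, ∃ C, IsClub C ∧ Disjoint {x | x ∈ Y ∧ f x = a} C := fun a =>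
    not_isStationary_iff.1 (h a)
  choose C hC hd using h1
  obtain ⟨x, hx, hxD⟩ := hY (club_diag hC)
  exact Set.disjoint_left.1 (hd (f x)) ⟨hx, rfl⟩ (hxD (f x) (hf x hx))

/-- the limit ordinals -/
def Lm : Set Om := {x | (∃ a, a < x) ∧ ∀ a, a < x → ∃ b, a < b ∧ b < x}

theorem club_Lm : IsClub Lm := by
  constructor
  · intro d hd hne _ x hx
    constructor
    · obtain ⟨t, ht⟩ := hne
      obtain ⟨⟨a, ha⟩, _⟩ := hd ht
      exact ⟨a, lt_of_lt_of_le ha (hx.1 ht)⟩
    · intro a hax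
      obtain ⟨t, ht, hat⟩ := (lt_isLUB_iff hx).1 hax
      obtain ⟨b, hb1, hb2⟩ := (hd ht).2 a hat
      exact ⟨b, hb1, lt_of_lt_of_le hb2 (hx.1 ht)⟩
  · intro a0
    choose f hf using om_gt
    let g : ℕ → Om := fun n => Nat.rec a0 (fun _ b => f b) n
    have hg : ∀ n, g (n + 1) = f (g n) := fun n => rfl
    have hlt : ∀ n, g n < g (n + 1) := fun n => by rw [hg]; exact hf _
    obtain ⟨x, hx⟩ := om_lub_seq g
    have hgx : ∀ n, g n < x := fun n => lt_of_lt_of_le (hlt n) (hx.1 ⟨n + 1, rfl⟩)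
    refine ⟨x, ⟨⟨g 0, hgx 0⟩, ?_⟩, hx.1 ⟨0, rfl⟩⟩
    intro a hax
    obtain ⟨_, ⟨n, rfl⟩, hn⟩ := (lt_isLUB_iff hx).1 hax
    exact ⟨g n, hn, hgx n⟩

theorem exists_ladder (x : Om) (hx : x ∈ Lm) :
    ∃ L : ℕ → Om, StrictMono L ∧ (∀ i, L i < x) ∧ ∀ a, a < x → ∃ i, a < L i := by
  obtain ⟨⟨a0, ha0⟩, hlim⟩ := hx
  obtain ⟨f, hf⟩ := (om_countable x).exists_eq_range ⟨a0, ha0⟩
  have hfx : ∀ n, f n < x := fun n => by
    have : f n ∈ Iio x := by rw [hf]; exact ⟨n, rfl⟩
    exact this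
  have step : ∀ (n : ℕ) (b : Iio x), ∃ c : Iio x, b.1 < c.1 ∧ f n < c.1 := by
    intro n b
    obtain ⟨c, hc1, hc2⟩ := hlim (max b (f n)) (max_lt b.2 (hfx n))
    exact ⟨⟨c, hc2⟩, lt_of_le_of_lt (le_max_left _ _) hc1, lt_of_le_of_lt (le_max_right _ _) hc1⟩
  choose F hF1 hF2 using step
  let g : ℕ → Iio x := fun n => Nat.rec ⟨a0, ha0⟩ (fun n b => F n b) n
  have hg : ∀ n, g (n + 1) = F n (g n) := fun n => rfl
  have hgx : ∀ n, (g n).1 < x := fun n => (g n).2
  refine ⟨fun n => (g n).1, strictMono_nat_of_lt_succ (fun n => ?_), hgx, ?_⟩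
  · show (g n).1 < (g (n + 1)).1
    rw [hg]
    exact hF1 _ _
  · intro a ha
    have : a ∈ range f := by rw [← hf]; exact ha
    obtain ⟨n, rfl⟩ := this
    refine ⟨n + 1, ?_⟩
    show f n < (g (n + 1)).1
    rw [hg]
    exact hF2 _ _

/-- A ladder system. -/
structure Ladder (L : Om → ℕ → Om) : Prop where
  mono : ∀ x ∈ Lm, StrictMono (L x)
  lt : ∀ x ∈ Lm, ∀ i, L x i < x
  cof : ∀ x ∈ Lm, ∀ a, a < x → ∃ i, a < L x i

theorem exists_ladders : ∃ L, Ladder L := by
  classical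
  choose F hF using exists_ladder
  refine ⟨fun x => if h : x ∈ Lm then F x h else fun _ => x, ?_, ?_, ?_⟩
  · intro x hx
    simp only [hx, dif_pos]
    exact (hF x hx).1
  · intro x hx
    simp only [hx, dif_pos]
    exact (hF x hx).2.1
  · intro x hx
    simp only [hx, dif_pos]
    exact (hF x hx).2.2

/-- bounds of countably many properties -/
theorem pigeon {ι : Type*} [Countable ι] {P : Om → ι → Prop}
    (h : ∀ γ : Om, ∃ α, γ < α ∧ ∃ i, P α i) : ∃ i, ∀ γ : Om, ∃ α, γ < α ∧ P α i := by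
  by_contra hc
  push Not at hc
  choose g hg using hc
  obtain ⟨b, hb⟩ := om_bdd (countable_range g)
  obtain ⟨α, hα, i, hi⟩ := h b
  exact hg i α (lt_trans (hb _ ⟨i, rfl⟩) hα) hi

end Pool.Agent.H.MP_670a4f_lc.St
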