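import Pool.Agent.H.MP_670a4f_lc.St.Stat

/-!
# MP_670a4f_lc, St/Types: splitting levels of stationary sets along a ladder system
-/

set_option autoImplicit false

namespace Pool.Agent.H.MP_670a4f_lc.St

open Set Cardinal

/-- the points of `Y` agree below the index `m` -/
def Agr (L : Om → ℕ → Om) (m : ℕ) (Y : Set Om) : Prop :=
  ∀ x ∈ Y, ∀ y ∈ Y, ∀ i, i < m → L x i = L y i

theorem Agr.mono {L : Om → ℕ → Om} {m : ℕ} {Y Z : Set Om} (h : Agr L m Y) (hZ : Z ⊆ Y) :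
    Agr L m Z := fun x hx y hy i hi => h x (hZ hx) y (hZ hy) i hi

/-- finitely many ordinals have an upper bound -/
theorem fin_bdd (m : ℕ) (P : ℕ → Om → Prop) (hP : ∀ i, i < m → ∃ b, P i b)
    (hmono : ∀ i b c, P i b → b ≤ c → P i c) : ∃ b, ∀ i, i < m → P i b := by
  have h1 : ∀ i : ℕ, ∃ b : Om, i < m → P i b := by
    intro i
    by_cases h : i < m
    · obtain ⟨b, hb⟩ := hP i h
      exact ⟨b, fun _ => hb⟩
    · exact ⟨Classical.arbitrary Om, fun h' => absurd h' h⟩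
  choose f hf using h1
  obtain ⟨b, hb⟩ := om_bdd_seq f
  exact ⟨b, fun i hi => hmono i _ _ (hf i hi) (hb i).le⟩

/-- the splitting lemma -/
theorem split {L : Om → ℕ → Om} (hL : Ladder L) {Y : Set Om} (hY : IsStationary Y)
    (hYL : Y ⊆ Lm) : ∃ (m : ℕ) (Z : Set Om), Z ⊆ Y ∧ Agr L m Z ∧
      ∀ γ, ∃ α, γ < α ∧ IsStationary {x | x ∈ Z ∧ L x m = α} := by
  classical
  have h1 : ∃ m, ∀ γ, IsStationary {x | x ∈ Y ∧ γ < L x m} := by
    by_contra hc
    push Not at hc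
    choose g hg using hc
    obtain ⟨b, hb⟩ := om_bdd_seq g
    have h2 : Y ∩ Ioi b ⊆ ⋃ m, {x | x ∈ Y ∧ g m < L x m} := by
      intro x hx
      obtain ⟨m, hm⟩ := hL.cof x (hYL hx.1) b hx.2
      exact mem_iUnion.2 ⟨m, hx.1, lt_trans (hb m) hm⟩
    obtain ⟨m, hm⟩ := stat_cover (stat_inter hY (club_Ioi b)) h2
    exact hg m hm
  let m := Nat.find h1
  have hm : ∀ γ, IsStationary {x | x ∈ Y ∧ γ < L x m} := Nat.find_spec h1
  have hmin : ∀ i, i < m → ∃ γ, ¬ IsStationary {x | x ∈ Y ∧ γ < L x i} := by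
    intro i hi
    have := Nat.find_min h1 hi
    push Not at this
    exact this
  obtain ⟨b, hb⟩ := fin_bdd m (fun i γ => ¬ IsStationary {x | x ∈ Y ∧ γ < L x i}) hmin (by
    intro i b c h1 hbc h2
    exact h1 (h2.mono (fun x hx => ⟨hx.1, lt_of_le_of_lt hbc hx.2⟩)))
  -- the part of `Y` with small initial segments
  have h3 : ∀ γ, IsStationary {x | x ∈ Y ∧ (∀ i, i < m → L x i ≤ b) ∧ γ < L x m} := by
    intro γ
    have h4 : {x | x ∈ Y ∧ γ < L x m} ⊆ ⋃ j : Option (Fin m), (match j with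
        | none => {x | x ∈ Y ∧ (∀ i, i < m → L x i ≤ b) ∧ γ < L x m}
        | some i => {x | x ∈ Y ∧ b < L x i}) := by
      intro x hx
      by_cases h : ∀ i, i < m → L x i ≤ b
      · exact mem_iUnion.2 ⟨none, hx.1, h, hx.2⟩
      · push Not at h
        obtain ⟨i, hi, hbi⟩ := h
        exact mem_iUnion.2 ⟨some ⟨i, hi⟩, hx.1, hbi⟩
    obtain ⟨j, hj⟩ := stat_cover (hm γ) h4
    cases j with
    | none => exact hj
    | some i => exact absurd hj (hb i i.2)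
  -- one initial segment
  have : Countable (Iic b) := by
    have h2 : Iic b = Iio b ∪ {b} := by
      ext t
      simp [le_iff_lt_or_eq]
    rw [h2]
    exact ((om_countable b).union (countable_singleton b)).to_subtype
  have h5 : ∃ s : Fin m → Iic b, ∀ γ,
      IsStationary {x | x ∈ Y ∧ (∀ i : Fin m, L x i = (s i).1) ∧ γ < L x m} := by
    by_contra hc
    push Not at hc
    choose g hg using hc
    obtain ⟨c, hc⟩ := om_bdd (countable_range g)
    have h6 : {x | x ∈ Y ∧ (∀ i, i < m → L x i ≤ b) ∧ c < L x m} ⊆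
        ⋃ s : Fin m → Iic b, {x | x ∈ Y ∧ (∀ i : Fin m, L x i = (s i).1) ∧ g s < L x m} := by
      intro x hx
      refine mem_iUnion.2 ⟨fun i => ⟨L x i, hx.2.1 i i.2⟩, hx.1, fun i => rfl, ?_⟩
      exact lt_trans (hc _ ⟨_, rfl⟩) hx.2.2
    obtain ⟨s, hs⟩ := stat_cover (h3 c) h6
    exact hg s hs
  obtain ⟨s, hs⟩ := h5
  refine ⟨m, {x | x ∈ Y ∧ ∀ i : Fin m, L x i = (s i).1}, fun x hx => hx.1, ?_, ?_⟩
  · intro x hx y hy i hi
    rw [hx.2 ⟨i, hi⟩, hy.2 ⟨i, hi⟩]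
  · intro γ
    obtain ⟨α, hα⟩ := fodor (hs γ) (fun x => L x m) (fun x hx => hL.lt x (hYL hx.1) m)
    refine ⟨α, ?_, hα.mono ?_⟩
    · obtain ⟨x, hx⟩ := hα.nonempty
      rw [← hx.2]
      exact hx.1.2.2
    · intro x hx
      exact ⟨⟨hx.1.1, hx.1.2.1⟩, hx.2⟩

/-- the type (a list of splitting indices) of a stationary set -/
def Typ (L : Om → ℕ → Om) : List ℕ → Set Om → Prop
  | [], Y => IsStationary Y
  | m :: s, Y => ∃ Z : Set Om, Z ⊆ Y ∧ Agr L m Z ∧
      ∀ γ, ∃ α, γ < α ∧ Typ L s {x | x ∈ Z ∧ L x m = α}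

theorem Typ.nonempty {L : Om → ℕ → Om} : ∀ {s : List ℕ} {Y : Set Om}, Typ L s Y → Y.Nonempty
  | [], Y, h => IsStationary.nonempty h
  | m :: s, Y, h => by
    obtain ⟨Z, hZ, _, h2⟩ := h
    obtain ⟨α, _, h3⟩ := h2 (Classical.arbitrary Om)
    obtain ⟨x, hx⟩ := Typ.nonempty h3
    exact ⟨x, hZ hx.1⟩

/-- `Y` splits at the index `m` into sets of type `s` -/
def Sp (L : Om → ℕ → Om) (Y : Set Om) (m : ℕ) (s : List ℕ) : Prop :=
  Agr L m Y ∧ ∀ γ, ∃ α, γ < α ∧ Typ L s {x | x ∈ Y ∧ L x m = α}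

theorem typ_exists {L : Om → ℕ → Om} (hL : Ladder L) : ∀ (n : ℕ) (Y : Set Om),
    IsStationary Y → Y ⊆ Lm → ∃ s : List ℕ, s.length = n ∧ Typ L s Y := by
  intro n
  induction n with
  | zero => intro Y hY _; exact ⟨[], rfl, hY⟩
  | succ n ih =>
    intro Y hY hYL
    obtain ⟨m, Z, hZ, hA, hU⟩ := split hL hY hYL
    have h1 : ∀ γ : Om, ∃ α, γ < α ∧ ∃ s : List ℕ, s.length = n ∧
        Typ L s {x | x ∈ Z ∧ L x m = α} := by
      intro γ
      obtain ⟨α, hα, h2⟩ := hU γ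
      exact ⟨α, hα, ih _ h2 (fun x hx => hYL (hZ hx.1))⟩
    obtain ⟨s, hs⟩ := pigeon h1
    have h2 : s.length = n := by
      obtain ⟨α, _, h3, _⟩ := hs (Classical.arbitrary Om)
      exact h3
    refine ⟨m :: s, by rw [List.length_cons, h2], Z, hZ, hA, ?_⟩
    intro γ
    obtain ⟨α, hα, _, h3⟩ := hs γ
    exact ⟨α, hα, h3⟩

/-- the next set: above `γ` there is a value `α` and a subset on which the index `m` has
the value `α`, split at the next index -/
theorem Sp.next {L : Om → ℕ → Om} {Y : Set Om} {m a : ℕ} {s : List ℕ} (h : Sp L Y m (a :: s))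
    (γ : Om) : ∃ (α : Om) (Z : Set Om), γ < α ∧ Z ⊆ Y ∧ (∀ x ∈ Z, L x m = α) ∧ Sp L Z a s ∧
      m < a ∧ Z.Nonempty := by
  obtain ⟨α, hα, Z, hZ, hA, hU⟩ := h.2 γ
  have hne : Z.Nonempty := by
    obtain ⟨β, _, h1⟩ := hU γ
    obtain ⟨x, hx⟩ := h1.nonempty
    exact ⟨x, hx.1⟩
  refine ⟨α, Z, hα, fun x hx => (hZ hx).1, fun x hx => (hZ hx).2, ⟨hA, hU⟩, ?_, hne⟩
  by_contra hc
  obtain ⟨x0, hx0⟩ := hne
  obtain ⟨β, hβ, h1⟩ := hU (L x0 a)
  obtain ⟨x, hx⟩ := h1.nonempty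
  have h2 : L x a = L x0 a := by
    rcases Nat.lt_or_ge a m with h3 | h3
    · exact h.1 x (hZ hx.1).1 x0 (hZ hx0).1 a h3
    · have h4 : a = m := by omega
      rw [h4]
      rw [(hZ hx.1).2, (hZ hx0).2]
  rw [hx.2] at h2
  exact absurd hβ (by rw [h2]; exact lt_irrefl _)

/-- the construction of a pair with a prescribed alternation -/
theorem build {L : Om → ℕ → Om} : ∀ (s : List ℕ) (a b : ℕ) (X Y : Set Om),
    1 ≤ b → b < a → Sp L X a s → Sp L Y b (a :: s) →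
    ∃ x ∈ X, ∃ y ∈ Y, ∃ p : ℕ → ℕ, p 0 = b ∧ p 1 = a ∧
      (∀ j, j ≤ s.length → p j < p (j + 1) ∧ L y (p j - 1) < L x (p (j + 1))) ∧
      (∀ j, j < s.length → L x (p (j + 2) - 1) < L y (p j)) ∧
      x ≤ L y (p s.length) := by
  intro s
  induction s with
  | nil =>
    intro a b X Y hb hba hX hY
    obtain ⟨y0, hy0⟩ : Y.Nonempty := by
      obtain ⟨α, _, h1⟩ := hY.2 (Classical.arbitrary Om)
      obtain ⟨y, hy⟩ := h1.nonempty
      exact ⟨y, hy.1⟩
    obtain ⟨α, hα, h1⟩ := hX.2 (L y0 (b - 1))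
    obtain ⟨x, hx, hxa⟩ := Typ.nonempty h1
    obtain ⟨β, hβ, h2⟩ := hY.2 x
    obtain ⟨y, hy, hyb⟩ := Typ.nonempty h2
    refine ⟨x, hx, y, hy, fun j => if j = 0 then b else a + (j - 1), by simp, by simp, ?_, ?_, ?_⟩
    · intro j hj
      have hj0 : j = 0 := Nat.le_zero.1 hj
      subst hj0
      simp only [if_true, Nat.zero_add, one_ne_zero, if_false, Nat.sub_self, Nat.add_zero]
      refine ⟨hba, ?_⟩
      rw [hxa, hY.1 y hy y0 hy0 (b - 1) (by omega)]
      exact hα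
    · intro j hj
      exact absurd hj (Nat.not_lt_zero j)
    · simp only [List.length_nil, if_true]
      rw [hyb]
      exact hβ.le
  | cons c s ih =>
    intro a b X Y hb hba hX hY
    obtain ⟨y0, hy0⟩ : Y.Nonempty := by
      obtain ⟨α, _, h1⟩ := hY.2 (Classical.arbitrary Om)
      obtain ⟨y, hy⟩ := h1.nonempty
      exact ⟨y, hy.1⟩
    obtain ⟨α, X', hα, hX', hXa, hSX, hac, x0, hx0⟩ := hX.next (L y0 (b - 1))
    obtain ⟨β, Y', hβ, hY', hYb, hSY, _, _⟩ := hY.next (L x0 (c - 1))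
    obtain ⟨x, hx, y, hy, p, hp0, hp1, h1, h2, h3⟩ :=
      ih c a X' Y' (by omega) hac hSX hSY
    refine ⟨x, hX' hx, y, hY' hy, fun j => if j = 0 then b else p (j - 1), by simp, ?_, ?_, ?_, ?_⟩
    · show p 0 = a
      exact hp0
    · intro j hj
      cases j with
      | zero =>
        show b < p 0 ∧ L y (b - 1) < L x (p 0)
        rw [hp0, hXa x hx, hY.1 y (hY' hy) y0 hy0 (b - 1) (by omega)]
        exact ⟨hba, hα⟩
      | succ j =>
        show p j < p (j + 1) ∧ L y (p j - 1) < L x (p (j + 1))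
        exact h1 j (by simpa using hj)
    · intro j hj
      cases j with
      | zero =>
        show L x (p 1 - 1) < L y b
        rw [hp1, hYb y hy, hSX.1 x hx x0 hx0 (c - 1) (by omega)]
        exact hβ
      | succ j =>
        show L x (p (j + 2) - 1) < L y (p j)
        exact h2 j (by simpa using hj)
    · show x ≤ L y (p s.length)
      exact h3

end Pool.Agent.H.MP_670a4f_lc.St
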